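import Mathlib

/-!
# MU-MM0: a function with null measurable fibres is almost everywhere equal to a measurable one
-/

set_option autoImplicit false

open Finset Filter MeasureTheory

namespace Pool.Agent.helper49.MU

theorem exists_borel {Ω : Type} [MeasurableSpace Ω] (μ : Measure Ω) {Y : ℕ → Type} [∀ n, Finite (Y n)]
    [∀ n, Nonempty (Y n)] (Φ : Ω → ∀ n, Y n) (h : ∀ n (y : Y n), NullMeasurableSet {x | Φ x n = y} μ) :
    ∃ Φ' : Ω → ∀ n, Y n, (∀ n (y : Y n), MeasurableSet {x | Φ' x n = y}) ∧ ∀ᵐ x ∂μ, Φ' x = Φ x := by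
  have key : ∀ n, ∃ f : Ω → Y n, (∀ y, MeasurableSet {x | f x = y}) ∧ ∀ᵐ x ∂μ, f x = Φ x n := by
    intro n
    letI : MeasurableSpace (Y n) := ⊤
    haveI : Countable (Y n) := Finite.to_countable
    haveI : DiscreteMeasurableSpace (Y n) := ⟨fun _ => MeasurableSpace.measurableSet_top⟩
    have h1 : NullMeasurable (fun x => Φ x n) μ := by
      intro s _
      have h2 : (fun x => Φ x n) ⁻¹' s = ⋃ y ∈ s, {x | Φ x n = y} := by
        ext x
        simp
      rw [h2]
      exact NullMeasurableSet.biUnion (Set.to_countable s) fun y _ => h n y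
    have h3 : AEMeasurable (fun x => Φ x n) μ := h1.aemeasurable
    refine ⟨h3.mk _, fun y => ?_, ?_⟩
    · exact h3.measurable_mk (MeasurableSpace.measurableSet_top (s := ({y} : Set (Y n))))
    · filter_upwards [h3.ae_eq_mk] with x hx
      exact hx.symm
  choose f hf1 hf2 using key
  refine ⟨fun x n => f n x, fun n y => hf1 n y, ?_⟩
  filter_upwards [ae_all_iff.2 hf2] with x hx
  funext n
  exact hx n

end Pool.Agent.helper49.MU
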